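import Pool.Agent.Q294.Loops.Sup

/-!
# MP_74bc7f: the linear order is attained

For every `d ≥ 3` there is a constant `C` (in fact `C = 3 (d - 1)` works) such that for every
`r ∈ (0, 1]` there is an infinite connected `d`-regular unimodular random graph with loop density at
least `r` and spectral radius at most `2 √(d - 1) / d + C r`.

The graph is a tree of balls: take a ball of radius `R` of the `d`-regular tree, with one loop at its
centre instead of one of the edges, and glue its copies along a free product of groups of order two.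
-/

open MeasureTheory Filter
open scoped ENNReal

namespace Pool.Agent.Results.MP_74bc7f_pr.LinearOrder

open Q294.Loops

theorem exists_radius (q : ℕ) (hq : 2 ≤ q) (r : ℝ) (hr0 : 0 < r) (hr1 : r ≤ 1) :
    ∃ R : ℕ, (Fintype.card (Bl q R) : ℝ) ≤ 1 / r ∧ 1 / (q : ℝ) ^ R ≤ 3 * q * r := by
  set N := ⌊(1 / r + 1) / 2⌋₊ with hN
  have h1r : 1 ≤ 1 / r := by rw [le_div_iff₀ hr0]; linarith
  have hN1 : 1 ≤ N := by
    rw [hN, Nat.one_le_floor_iff]; linarith
  have hNle : (N : ℝ) ≤ (1 / r + 1) / 2 := Nat.floor_le (by positivity)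
  have hNgt : (1 / r + 1) / 2 < N + 1 := Nat.lt_floor_add_one _
  refine ⟨Nat.log q N, ?_, ?_⟩
  · have h1 : q ^ Nat.log q N ≤ N := Nat.pow_log_le_self q (by omega)
    have h2 := card_Bl_le q (Nat.log q N) hq
    have h3 : Fintype.card (Bl q (Nat.log q N)) + 1 ≤ 2 * N := h2.trans (by omega)
    have h4 : (Fintype.card (Bl q (Nat.log q N)) : ℝ) + 1 ≤ 2 * N := by exact_mod_cast h3
    linarith
  · have h1 : N < q ^ (Nat.log q N + 1) := Nat.lt_pow_succ_log_self (by omega) N
    have h2 : (N : ℝ) < (q : ℝ) ^ (Nat.log q N + 1) := by exact_mod_cast h1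
    have hqR : (0 : ℝ) < (q : ℝ) ^ Nat.log q N := by positivity
    rw [pow_succ] at h2
    rw [div_le_iff₀ hqR]
    have hN1' : (1 : ℝ) ≤ N := by exact_mod_cast hN1
    have h3 : 1 ≤ 3 * r * N := by
      have e : 1 / r * r = 1 := by field_simp
      rcases le_or_gt (1 / 3) r with h | h
      · nlinarith
      · nlinarith
    nlinarith

theorem result (d : ℕ) (hd : 3 ≤ d) :
    ∃ C : ℝ, 0 < C ∧ ∀ r : ℝ, 0 < r → r ≤ 1 →
      ∃ (Ω : Type) (_ : MeasurableSpace Ω) (P : Measure Ω) (_ : IsProbabilityMeasure P)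
        (a : Ω → ℕ → ℕ → ℕ) (o : Ω → ℕ),
        (∀ ω, IsRegularGraph d (a ω)) ∧ IsUnimodular P a o ∧
        (∀ ω v, spectralRadius d (a ω) v ≤ 2 * √((d : ℝ) - 1) / d + C * r) ∧
        ENNReal.ofReal r ≤ P {ω | 1 ≤ a ω (o ω) (o ω)} := by
  obtain ⟨q, rfl⟩ : ∃ q, d = q + 1 := ⟨d - 1, by omega⟩
  have hq : 2 ≤ q := by omega
  have hqR : (2 : ℝ) ≤ q := by exact_mod_cast hq
  refine ⟨3 * q, by positivity, fun r hr0 hr1 => ?_⟩
  obtain ⟨R, hcard, hrad⟩ := exists_radius q hq r hr0 hr1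
  haveI : Infinite (Gam (Let q R)) := by
    refine infinite_gam ((⟨0, by omega⟩ : Fin q), List.Vector.replicate R ⟨0, by omega⟩)
      ((⟨1, by omega⟩ : Fin q), List.Vector.replicate R ⟨0, by omega⟩) ?_
    intro h
    have := congrArg Prod.fst h
    simp at this
  set c : Bl q R := ⟨[], by simp⟩ with hc
  have hloop : ∃ k, nb ((1 : Gam (Let q R)), c) k = (1, c) := ⟨none, rfl⟩
  -- it suffices to find a superharmonic function
  suffices hsuff : ∃ (h : Vt q R → ℝ) (lam : ℝ), (∀ x, 0 < h x) ∧ 0 ≤ lam ∧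
      (∀ x, ∑ k, h (nb x k) ≤ lam * h x) ∧
      lam / ((q + 1 : ℕ) : ℝ) ≤ 2 * √(((q + 1 : ℕ) : ℝ) - 1) / ((q + 1 : ℕ) : ℝ) + 3 * q * r by
    obtain ⟨h, lam, hpos, hlam, hs, hle⟩ := hsuff
    obtain ⟨Ω, mΩ, P, hP, a, o, h1, h2, h3, h4⟩ := exists_graph (Γ := Gam (Let q R))
      (B := Bl q R) (K := Option (Fin q)) (q + 1) (by simp) nb io (fun _ _ => rfl) io_invol
      nb_equi conn_all h hpos hlam hs c hloop
    refine ⟨Ω, mΩ, P, hP, a, o, h1, h2, fun ω v => (h3 ω v).trans hle, le_trans ?_ h4⟩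
    have hcpos : (0 : ℝ) < Fintype.card (Bl q R) := by
      exact_mod_cast Fintype.card_pos
    rw [← ENNReal.ofReal_natCast, ← ENNReal.ofReal_inv_of_pos hcpos]
    apply ENNReal.ofReal_le_ofReal
    rw [← one_div, le_div_iff₀ hcpos]
    calc r * Fintype.card (Bl q R) ≤ r * (1 / r) := mul_le_mul_of_nonneg_left hcard hr0.le
      _ = 1 := by field_simp
  have hd0 : (0 : ℝ) < ((q + 1 : ℕ) : ℝ) := by positivity
  have hsq : (((q + 1 : ℕ) : ℝ) - 1) = q := by push_cast; ring
  rw [hsq]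
  rcases Nat.eq_zero_or_pos R with hR | hR
  · refine ⟨fun _ => 1, ((q + 1 : ℕ) : ℝ), fun _ => one_pos, hd0.le, fun x => ?_, ?_⟩
    · simp
    · rw [div_self hd0.ne']
      have : 0 ≤ 2 * √(q : ℝ) / ((q + 1 : ℕ) : ℝ) := by positivity
      rw [hR] at hrad
      simp only [pow_zero, div_one] at hrad
      linarith
  · have hq0 : (0 : ℝ) < q := by linarith
    set a : ℝ := 1 / √(q : ℝ) with ha
    have hsqpos : 0 < √(q : ℝ) := Real.sqrt_pos.mpr hq0
    have hapos : 0 < a := by positivity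
    have haq : a ^ 2 * q = 1 := by
      rw [ha, div_pow, Real.sq_sqrt hq0.le]; field_simp
    have hinv : 1 / a = √(q : ℝ) := by rw [ha]; field_simp
    refine ⟨fun x => Hf a (wd x.1) x.2.1, (1 / a) * (2 + 1 / (q : ℝ) ^ R),
      fun x => Hf_pos hapos hq _ _, by positivity, fun x => ?_, ?_⟩
    · obtain ⟨g, b, hb⟩ := x
      have key := Hf_super hapos haq hq hR (wd g) b hb
      rw [Fintype.sum_option]
      refine le_trans (le_of_eq ?_) key
      congr 1
      refine Finset.sum_congr rfl fun i _ => ?_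
      simp only [nb]
      split_ifs with h
      · rfl
      · rfl
    · rw [hinv, mul_add, add_div]
      have e1 : √(q : ℝ) * 2 / ((q + 1 : ℕ) : ℝ) = 2 * √(q : ℝ) / ((q + 1 : ℕ) : ℝ) := by ring
      rw [e1]
      refine add_le_add le_rfl ?_
      rw [div_le_iff₀ hd0]
      have hle : √(q : ℝ) ≤ ((q + 1 : ℕ) : ℝ) := by
        rw [Real.sqrt_le_left (by positivity)]
        push_cast; nlinarith
      have hx : 0 ≤ 1 / (q : ℝ) ^ R := by positivity
      calc √(q : ℝ) * (1 / (q : ℝ) ^ R) ≤ ((q + 1 : ℕ) : ℝ) * (3 * q * r) :=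
            mul_le_mul hle hrad hx (by positivity)
        _ = _ := by ring

end Pool.Agent.Results.MP_74bc7f_pr.LinearOrder
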